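import Mathlib

/-!
# `MP_f5b38d_co`: the upper bound `β(G)` for `τ(G)` is not tight, even for trees

For `c ≤ s` let `spider s c` be the tree obtained from the star `K_{1,s}` by subdividing `c` of its
edges once.  It has `m = s + c` edges, `n = s + c + 1` vertices and `k = c` internal edges.  If
`s ≥ 12 c + 14` then `β = 2 m + 5 c + 1`.  On the other hand, in `spider s c ∪ t P_3` the `c`
vertices of degree two of the spider and the `t` centres of the paths have pairwise disjoint sets
of incident edges; in an antimagic labelling with largest label `M = m + 2 t`, at most `c` of these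
`c + t` vertices have a sum `≤ M` (such a sum is the label of an edge without a leaf), so at least
`t` of them have different sums `> M`, made of `2 t` different labels `≤ M`.  This gives
`5 t ≤ 2 M + 1`, that is `t ≤ 2 m + 1 = β - 5 c`.
-/

set_option autoImplicit false

open SimpleGraph

namespace Pool.Agent.Results.MP_f5b38d_co.TauGapTrees

/-- The vertex sum `φ_f(v)`: the sum of the labels of the edges of `G` incident to `v`. -/
noncomputable def vertexSum {V : Type} (G : SimpleGraph V) (f : Sym2 V → ℕ) (v : V) : ℕ :=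
  ∑ᶠ e ∈ G.incidenceSet v, f e

/-- `f` restricts to a bijection from the edge set of `G` onto `{1, …, m}` and the vertex sums
of distinct vertices are distinct. -/
def IsAntimagicLabelling {V : Type} (G : SimpleGraph V) (f : Sym2 V → ℕ) : Prop :=
  Set.BijOn f G.edgeSet (Set.Icc 1 G.edgeSet.ncard) ∧
    ∀ u v : V, u ≠ v → vertexSum G f u ≠ vertexSum G f v

/-- `G` is antimagic if it has an antimagic labelling. -/
def Antimagic {V : Type} (G : SimpleGraph V) : Prop :=
  ∃ f : Sym2 V → ℕ, IsAntimagicLabelling G f

/-- `copiesP3 t` is the disjoint union of `t` copies of the path `P_3` on three vertices. -/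
def copiesP3 (t : ℕ) : SimpleGraph (Fin t × Fin 3) :=
  (⊥ : SimpleGraph (Fin t)) □ pathGraph 3

/-- `τ(G)` as an extended real number: the supremum (in `[-∞, ∞]`) of the integers `t ≥ 0` such
that `G ∪ t' P_3` is antimagic for every `0 ≤ t' ≤ t`.  If `G` is not antimagic there is no such
`t` (the case `t' = 0`) and the supremum is `-∞`. -/
noncomputable def tau {V : Type} (G : SimpleGraph V) : EReal :=
  sSup {x : EReal | ∃ t : ℕ, x = ((t : ℝ) : EReal) ∧ ∀ t' : ℕ, t' ≤ t → Antimagic (G ⊕g copiesP3 t')}

/-- The internal edges of `G`: neither end is a leaf. -/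
def internalEdges {V : Type} (G : SimpleGraph V) : Set (Sym2 V) :=
  {e | e ∈ G.edgeSet ∧ ∀ v ∈ e, (G.neighborSet v).ncard ≠ 1}

/-- The number of components of `G` isomorphic to `P_3`. -/
noncomputable def numP3 {V : Type} (G : SimpleGraph V) : ℕ :=
  Nat.card {c : G.ConnectedComponent // Nonempty (c.toSimpleGraph ≃g pathGraph 3)}

/-- The upper bound
`β(G) = ⌊min {(3 + 2√2)(m - n) + (1 + √2)(m + 1/2), 2 m + 5 (k - t') + 1}⌋`, where `n`, `m`, `k`
are the numbers of vertices, edges and internal edges of `G` and `t'` is the number of its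
components isomorphic to `P_3`. -/
noncomputable def beta {V : Type} (G : SimpleGraph V) : ℤ :=
  ⌊min ((3 + 2 * √2) * ((G.edgeSet.ncard : ℝ) - (Nat.card V : ℝ))
        + (1 + √2) * ((G.edgeSet.ncard : ℝ) + 1 / 2))
      (2 * (G.edgeSet.ncard : ℝ) + 5 * (((internalEdges G).ncard : ℝ) - (numP3 G : ℝ)) + 1)⌋

/-! ### Elementary counting lemmas -/

theorem sum_lower (A : Finset ℕ) (M : ℕ) (h : ∀ x ∈ A, M < x) :
    A.card * (2 * M + A.card + 1) ≤ 2 * ∑ x ∈ A, x := by
  induction A using Finset.induction_on_max with
  | empty => simp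
  | insert a A hA ih =>
    have ha : a ∉ A := fun hh => lt_irrefl _ (hA a hh)
    rw [Finset.sum_insert ha, Finset.card_insert_of_notMem ha]
    have ih' := ih (fun x hx => h x (Finset.mem_insert_of_mem hx))
    have hcard : A.card + M + 1 ≤ a := by
      have hsub : A ⊆ Finset.Ioo M a := by
        intro x hx
        rw [Finset.mem_Ioo]
        exact ⟨h x (Finset.mem_insert_of_mem hx), hA x hx⟩
      have := Finset.card_le_card hsub
      rw [Nat.card_Ioo] at this
      have h1 : M < a := h a (Finset.mem_insert_self _ _)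
      omega
    nlinarith

theorem sum_upper (A : Finset ℕ) (M : ℕ) (h : ∀ x ∈ A, x ≤ M) :
    2 * ∑ x ∈ A, x + A.card * A.card ≤ A.card * (2 * M + 1) := by
  induction A using Finset.induction_on_min with
  | empty => simp
  | insert a A hA ih =>
    have ha : a ∉ A := fun hh => lt_irrefl _ (hA a hh)
    rw [Finset.sum_insert ha, Finset.card_insert_of_notMem ha]
    have ih' := ih (fun x hx => h x (Finset.mem_insert_of_mem hx))
    have hcard : A.card + a ≤ M := by
      have hsub : A ⊆ Finset.Ioc a M := by
        intro x hx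
        rw [Finset.mem_Ioc]
        exact ⟨hA x hx, h x (Finset.mem_insert_of_mem hx)⟩
      have := Finset.card_le_card hsub
      rw [Nat.card_Ioc] at this
      have h1 : a ≤ M := h a (Finset.mem_insert_self _ _)
      omega
    nlinarith

/-! ### The general counting argument -/

theorem incidence_ncard {V : Type} (G : SimpleGraph V) (v : V) :
    (G.incidenceSet v).ncard = (G.neighborSet v).ncard := by
  classical
  exact Set.ncard_congr' (G.incidenceSetEquivNeighborSet v)

theorem vertexSum_leaf {V : Type} (G : SimpleGraph V) (f : Sym2 V → ℕ) {v : V} {e : Sym2 V}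
    (he : e ∈ G.edgeSet) (hv : v ∈ e) (hleaf : (G.neighborSet v).ncard = 1) :
    vertexSum G f v = f e := by
  rw [← incidence_ncard, Set.ncard_eq_one] at hleaf
  obtain ⟨e', he'⟩ := hleaf
  have : e ∈ G.incidenceSet v := ⟨he, hv⟩
  rw [he', Set.mem_singleton_iff] at this
  subst this
  unfold vertexSum
  rw [he', finsum_mem_singleton]

theorem core {V : Type} [Finite V] (H : SimpleGraph V) (f : Sym2 V → ℕ)
    (hf : IsAntimagicLabelling H f) (S : Finset V)
    (hdeg : ∀ v ∈ S, (H.neighborSet v).ncard = 2)
    (hind : ∀ u ∈ S, ∀ v ∈ S, ¬ H.Adj u v) :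
    5 * S.card ≤ 2 * H.edgeSet.ncard + 1 + 5 * (internalEdges H).ncard := by
  classical
  obtain ⟨hbij, hinj⟩ := hf
  set M := H.edgeSet.ncard with hM
  have hE : H.edgeSet.Finite := Set.toFinite _
  have hI : (internalEdges H).Finite := Set.toFinite _
  -- the vertices of `S` with small sum
  set Slow := S.filter (fun v => vertexSum H f v ≤ M) with hSlow
  set Shigh := S.filter (fun v => ¬ vertexSum H f v ≤ M) with hShigh
  have hsplit : Slow.card + Shigh.card = S.card := Finset.card_filter_add_card_filter_not _
  have hfpos : ∀ e ∈ H.edgeSet, 1 ≤ f e ∧ f e ≤ M := fun e he => hbij.mapsTo he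
  -- vertex sums of vertices in `S` as finite sums
  have hvs : ∀ v, vertexSum H f v = ∑ e ∈ (H.incidenceSet v).toFinite.toFinset, f e := by
    intro v
    unfold vertexSum
    exact finsum_mem_eq_finite_toFinset_sum f _
  have hpos : ∀ v ∈ S, 1 ≤ vertexSum H f v := by
    intro v hv
    have h2 := hdeg v hv
    rw [← incidence_ncard, Set.ncard_eq_two] at h2
    obtain ⟨a, b, hab, hs⟩ := h2
    have ha : a ∈ H.incidenceSet v := by rw [hs]; simp
    have : vertexSum H f v = f a + f b := by
      unfold vertexSum
      rw [hs, finsum_mem_pair hab]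
    have := (hfpos a ha.1).1
    omega
  have hlow : Slow.card ≤ (internalEdges H).ncard := by
    -- choose the edge with label `φ(v)`
    have hex : ∀ v, ∃ e : Sym2 V, v ∈ Slow → (e ∈ internalEdges H ∧ f e = vertexSum H f v) := by
      intro v
      by_cases hv : v ∈ Slow
      swap
      · exact ⟨s(v, v), fun h => absurd h hv⟩
      rw [hSlow, Finset.mem_filter] at hv
      obtain ⟨hvS, hvM⟩ := hv
      obtain ⟨e, he, hfe⟩ := hbij.surjOn (show vertexSum H f v ∈ Set.Icc 1 M from ⟨hpos v hvS, hvM⟩)
      refine ⟨e, fun _ => ⟨⟨he, ?_⟩, hfe⟩⟩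
      intro x hx hleaf
      have h1 : vertexSum H f x = f e := vertexSum_leaf H f he hx hleaf
      have h2 : x = v := by
        by_contra hne
        exact hinj x v hne (h1.trans hfe)
      subst h2
      have := hdeg x hvS
      omega
    choose g hg using hex
    have hinjg : Set.InjOn g (Slow : Set V) := by
      intro u hu v hv huv
      by_contra hne
      apply hinj u v hne
      rw [← (hg u hu).2, ← (hg v hv).2, huv]
    calc Slow.card = (Slow.image g).card := (Finset.card_image_of_injOn hinjg).symm
      _ ≤ hI.toFinset.card := by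
          apply Finset.card_le_card
          intro e he
          rw [Finset.mem_image] at he
          obtain ⟨v, hv, rfl⟩ := he
          rw [Set.Finite.mem_toFinset]
          exact (hg v hv).1
      _ = (internalEdges H).ncard := (Set.ncard_eq_toFinset_card _ hI).symm
  -- the high ones
  have hhigh : Shigh.card = 0 ∨ 5 * Shigh.card ≤ 2 * M + 1 := by
    rcases Nat.eq_zero_or_pos Shigh.card with h0 | hq
    · exact Or.inl h0
    right
    set q := Shigh.card with hq'
    -- lower bound
    have hinjφ : Set.InjOn (vertexSum H f) (Shigh : Set V) := by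
      intro u _ v _ huv
      by_contra hne
      exact hinj u v hne huv
    have hL : q * (2 * M + q + 1) ≤ 2 * ∑ v ∈ Shigh, vertexSum H f v := by
      have := sum_lower (Shigh.image (vertexSum H f)) M (by
        intro x hx
        rw [Finset.mem_image] at hx
        obtain ⟨v, hv, rfl⟩ := hx
        rw [hShigh, Finset.mem_filter] at hv
        omega)
      rw [Finset.card_image_of_injOn hinjφ, Finset.sum_image hinjφ] at this
      exact this
    -- upper bound
    set U := Shigh.biUnion (fun v => (H.incidenceSet v).toFinite.toFinset) with hU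
    have hdisj : (Shigh : Set V).PairwiseDisjoint
        (fun v => (H.incidenceSet v).toFinite.toFinset) := by
      intro u hu v hv huv
      rw [Function.onFun, Finset.disjoint_left]
      intro e heu hev
      rw [Set.Finite.mem_toFinset] at heu hev
      have h1 : e = s(u, v) := by
        have := (Sym2.mem_and_mem_iff huv).1 ⟨heu.2, hev.2⟩
        exact this
      have h2 : H.Adj u v := by
        rw [← SimpleGraph.mem_edgeSet, ← h1]
        exact heu.1
      have huS : u ∈ S := (Finset.mem_filter.1 (Finset.mem_coe.1 hu)).1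
      have hvS : v ∈ S := (Finset.mem_filter.1 (Finset.mem_coe.1 hv)).1
      exact hind u huS v hvS h2
    have hsumU : ∑ v ∈ Shigh, vertexSum H f v = ∑ e ∈ U, f e := by
      rw [hU, Finset.sum_biUnion hdisj]
      exact Finset.sum_congr rfl (fun v _ => hvs v)
    have hcardU : U.card = 2 * q := by
      rw [hU, Finset.card_biUnion hdisj]
      rw [Finset.sum_congr rfl (g := fun _ => 2)]
      · rw [Finset.sum_const, smul_eq_mul, mul_comm]
      · intro v hv
        have h2 := hdeg v (Finset.mem_filter.1 hv).1
        rw [← incidence_ncard, Set.ncard_eq_toFinset_card _ (Set.toFinite _)] at h2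
        exact h2
    have hUE : ∀ e ∈ U, e ∈ H.edgeSet := by
      intro e he
      rw [hU, Finset.mem_biUnion] at he
      obtain ⟨v, _, hv⟩ := he
      rw [Set.Finite.mem_toFinset] at hv
      exact hv.1
    have hinjU : Set.InjOn f (U : Set (Sym2 V)) :=
      hbij.injOn.mono (fun e he => hUE e (Finset.mem_coe.1 he))
    have hR : 2 * ∑ e ∈ U, f e + (2 * q) * (2 * q) ≤ (2 * q) * (2 * M + 1) := by
      have := sum_upper (U.image f) M (by
        intro x hx
        rw [Finset.mem_image] at hx
        obtain ⟨e, he, rfl⟩ := hx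
        exact (hfpos e (hUE e he)).2)
      rw [Finset.card_image_of_injOn hinjU, Finset.sum_image hinjU, hcardU] at this
      exact this
    rw [hsumU] at hL
    have : q * (5 * q) ≤ q * (2 * M + 1) := by nlinarith
    exact Nat.le_of_mul_le_mul_left this hq
  rcases hhigh with h0 | h5
  · omega
  · omega

/-! ### The trees -/

/-- Auxiliary relation for `spider`. -/
def spRel (s c : ℕ) : Option (Fin s ⊕ Fin c) → Option (Fin s ⊕ Fin c) → Prop
  | none, some (Sum.inl _) => True
  | some (Sum.inl i), some (Sum.inr j) => (i : ℕ) = (j : ℕ)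
  | _, _ => False

/-- The star with `s` edges in which `c` of the edges are subdivided once. -/
def spider (s c : ℕ) : SimpleGraph (Option (Fin s ⊕ Fin c)) :=
  SimpleGraph.fromRel (spRel s c)

section spider

variable {s c : ℕ}

theorem adj_none_inl (i : Fin s) : (spider s c).Adj none (some (Sum.inl i)) := by
  simp [spider, spRel]

theorem adj_inl_inr (i : Fin s) (j : Fin c) :
    (spider s c).Adj (some (Sum.inl i)) (some (Sum.inr j)) ↔ (i : ℕ) = (j : ℕ) := by
  simp [spider, spRel]

theorem not_adj_inl_inl (i j : Fin s) :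
    ¬ (spider s c).Adj (some (Sum.inl i)) (some (Sum.inl j)) := by
  simp [spider, spRel]

theorem not_adj_inr_inr (i j : Fin c) :
    ¬ (spider s c).Adj (some (Sum.inr i)) (some (Sum.inr j)) := by
  simp [spider, spRel]

theorem not_adj_none_inr (j : Fin c) :
    ¬ (spider s c).Adj none (some (Sum.inr j)) := by
  simp [spider, spRel]

theorem nbr_none : (spider s c).neighborSet none = Set.range (fun i : Fin s => some (Sum.inl i)) := by
  ext x
  rw [SimpleGraph.mem_neighborSet, Set.mem_range]
  rcases x with _ | (i | j)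
  · simp
  · simp [adj_none_inl]
  · simp [not_adj_none_inr]

theorem nbr_none_ncard : ((spider s c).neighborSet none).ncard = s := by
  rw [nbr_none, ← Set.image_univ, Set.ncard_image_of_injective, Set.ncard_univ, Nat.card_fin]
  intro a b hab
  simpa using hab

theorem nbr_inl_lt (hc : c ≤ s) (j : Fin c) :
    (spider s c).neighborSet (some (Sum.inl (Fin.castLE hc j))) = {none, some (Sum.inr j)} := by
  ext x
  rw [SimpleGraph.mem_neighborSet]
  rcases x with _ | (i | j')
  · simp [(adj_none_inl _).symm]
  · simp [not_adj_inl_inl]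
  · rw [adj_inl_inr]
    simp [Fin.ext_iff, eq_comm]

theorem nbr_inl_lt_ncard (hc : c ≤ s) (j : Fin c) :
    ((spider s c).neighborSet (some (Sum.inl (Fin.castLE hc j)))).ncard = 2 := by
  rw [nbr_inl_lt, Set.ncard_pair (by simp)]

theorem nbr_inl_ge (i : Fin s) (hi : c ≤ (i : ℕ)) :
    (spider s c).neighborSet (some (Sum.inl i)) = {none} := by
  ext x
  rw [SimpleGraph.mem_neighborSet]
  rcases x with _ | (i' | j')
  · simp [(adj_none_inl _).symm]
  · simp [not_adj_inl_inl]
  · rw [adj_inl_inr]
    have := j'.2
    simp only [Set.mem_singleton_iff, reduceCtorEq, iff_false]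
    omega

theorem nbr_inr (hc : c ≤ s) (j : Fin c) :
    (spider s c).neighborSet (some (Sum.inr j)) = {some (Sum.inl (Fin.castLE hc j))} := by
  ext x
  rw [SimpleGraph.mem_neighborSet, SimpleGraph.adj_comm]
  rcases x with _ | (i | j')
  · simp [not_adj_none_inr]
  · rw [adj_inl_inr]
    simp [Fin.ext_iff]
  · simp [not_adj_inr_inr]

/-- The edge below a non-root vertex. -/
def spEdge (hc : c ≤ s) : Fin s ⊕ Fin c → Sym2 (Option (Fin s ⊕ Fin c))
  | Sum.inl i => s(none, some (Sum.inl i))
  | Sum.inr j => s(some (Sum.inl (Fin.castLE hc j)), some (Sum.inr j))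

theorem spEdge_injective (hc : c ≤ s) : Function.Injective (spEdge (s := s) (c := c) hc) := by
  rintro (i | j) (i' | j') h
  · simpa [spEdge] using h
  · simp [spEdge] at h
  · simp [spEdge] at h
  · simpa [spEdge] using h

theorem range_spEdge (hc : c ≤ s) : Set.range (spEdge (s := s) (c := c) hc) = (spider s c).edgeSet := by
  ext e
  induction e using Sym2.ind with
  | _ x y =>
    rw [SimpleGraph.mem_edgeSet, Set.mem_range]
    constructor
    · rintro ⟨(i | j), h⟩
      · rw [← SimpleGraph.mem_edgeSet, ← h]
        exact adj_none_inl i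
      · rw [← SimpleGraph.mem_edgeSet, ← h]
        exact (adj_inl_inr _ _).2 (by simp)
    · intro h
      rcases x with _ | (i | j) <;> rcases y with _ | (i' | j')
      · exact absurd h (SimpleGraph.irrefl _)
      · exact ⟨Sum.inl i', rfl⟩
      · exact absurd h (not_adj_none_inr _)
      · exact ⟨Sum.inl i, Sym2.eq_swap⟩
      · exact absurd h (not_adj_inl_inl _ _)
      · rw [adj_inl_inr] at h
        refine ⟨Sum.inr j', ?_⟩
        have : Fin.castLE hc j' = i := Fin.ext (by simpa using h.symm)
        simp [spEdge, this]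
      · exact absurd h.symm (not_adj_none_inr _)
      · have h' := (adj_inl_inr _ _).1 h.symm
        refine ⟨Sum.inr j, ?_⟩
        have : Fin.castLE hc j = i' := Fin.ext (by simpa using h'.symm)
        simp only [spEdge, this]
        exact Sym2.eq_swap
      · exact absurd h (not_adj_inr_inr _ _)

theorem edgeSet_ncard (hc : c ≤ s) : (spider s c).edgeSet.ncard = s + c := by
  rw [← range_spEdge hc, ← Set.image_univ, Set.ncard_image_of_injective _ (spEdge_injective hc),
    Set.ncard_univ]
  simp

theorem card_V : Nat.card (Option (Fin s ⊕ Fin c)) = s + c + 1 := by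
  simp

theorem spider_connected (hc : c ≤ s) : (spider s c).Connected := by
  rw [SimpleGraph.connected_iff_exists_forall_reachable]
  refine ⟨none, ?_⟩
  rintro (_ | (i | j))
  · exact SimpleGraph.Reachable.refl _
  · exact (adj_none_inl i).reachable
  · exact (adj_none_inl (Fin.castLE hc j)).reachable.trans
      ((adj_inl_inr (Fin.castLE hc j) j).2 (by simp)).reachable

theorem spider_isTree (hc : c ≤ s) : (spider s c).IsTree := by
  rw [SimpleGraph.isTree_iff_connected_and_card]
  refine ⟨spider_connected hc, ?_⟩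
  rw [card_V, Nat.card_coe_set_eq, edgeSet_ncard hc]

theorem internal_spider (hc : c ≤ s) (hs : 2 ≤ s) :
    internalEdges (spider s c) =
      Set.range (fun j : Fin c => s((none : Option (Fin s ⊕ Fin c)), some (Sum.inl (Fin.castLE hc j)))) := by
  ext e
  constructor
  · rintro ⟨he, hint⟩
    rw [← range_spEdge hc] at he
    obtain ⟨(i | j), rfl⟩ := he
    · by_cases hi : (i : ℕ) < c
      · exact ⟨⟨i, hi⟩, rfl⟩
      · exfalso
        apply hint (some (Sum.inl i)) (by simp [spEdge])
        rw [nbr_inl_ge i (by omega), Set.ncard_singleton]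
    · exfalso
      apply hint (some (Sum.inr j)) (by simp [spEdge])
      rw [nbr_inr hc, Set.ncard_singleton]
  · rintro ⟨j, rfl⟩
    refine ⟨adj_none_inl _, ?_⟩
    intro v hv
    simp only [Sym2.mem_iff] at hv
    rcases hv with rfl | rfl
    · rw [nbr_none_ncard]; omega
    · rw [nbr_inl_lt_ncard]; omega

theorem internal_spider_ncard (hc : c ≤ s) (hs : 2 ≤ s) :
    (internalEdges (spider s c)).ncard = c := by
  rw [internal_spider hc hs, ← Set.image_univ, Set.ncard_image_of_injective, Set.ncard_univ,
    Nat.card_fin]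
  intro a b hab
  simpa using hab

/-- In a connected graph the vertex set of a component is everything. -/
theorem card_component {V : Type} {G : SimpleGraph V} (hG : G.Connected)
    (C : G.ConnectedComponent) {n : ℕ} {K : SimpleGraph (Fin n)} (φ : C.toSimpleGraph ≃g K) :
    Nat.card V = n := by
  have hsupp : C.supp = Set.univ := by
    ext v
    simp only [Set.mem_univ, iff_true]
    induction C using SimpleGraph.ConnectedComponent.ind with
    | _ w =>
      rw [SimpleGraph.ConnectedComponent.mem_supp_iff, SimpleGraph.ConnectedComponent.eq]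
      exact hG.preconnected v w
  have h1 : Nat.card C.supp = n := (Nat.card_congr φ.toEquiv).trans (Nat.card_fin n)
  rw [hsupp] at h1
  rw [← h1]
  exact (Nat.card_congr (Equiv.Set.univ V)).symm

theorem numP3_spider (hc : c ≤ s) (hs : 3 ≤ s) : numP3 (spider s c) = 0 := by
  unfold numP3
  rw [Nat.card_eq_zero]
  left
  constructor
  rintro ⟨C, ⟨φ⟩⟩
  have := card_component (spider_connected hc) C φ
  rw [card_V] at this
  omega

theorem noP2_spider (hc : c ≤ s) (hs : 3 ≤ s) (C : (spider s c).ConnectedComponent) :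
    IsEmpty (C.toSimpleGraph ≃g pathGraph 2) := by
  constructor
  intro φ
  have := card_component (spider_connected hc) C φ
  rw [card_V] at this
  omega

theorem noIsolated_spider (hc : c ≤ s) (hs : 1 ≤ s) (v : Option (Fin s ⊕ Fin c)) :
    ∃ w, (spider s c).Adj v w := by
  rcases v with _ | (i | j)
  · exact ⟨some (Sum.inl ⟨0, hs⟩), adj_none_inl _⟩
  · exact ⟨none, (adj_none_inl i).symm⟩
  · exact ⟨some (Sum.inl (Fin.castLE hc j)), ((adj_inl_inr (Fin.castLE hc j) j).2 (by simp)).symm⟩

theorem beta_spider (hs : 12 * c + 14 ≤ s) : 2 * ((s : ℤ) + c) + 5 * c + 1 ≤ beta (spider s c) := by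
  have hc : c ≤ s := by omega
  unfold beta
  rw [Int.le_floor, edgeSet_ncard hc, internal_spider_ncard hc (by omega),
    numP3_spider hc (by omega), card_V, le_min_iff]
  push_cast
  have h2 : (1.4142 : ℝ) ≤ √2 := by
    apply Real.le_sqrt_of_sq_le
    norm_num
  have hs' : (12 * (c : ℝ) + 14) ≤ s := by exact_mod_cast hs
  have hc0 : (0 : ℝ) ≤ c := Nat.cast_nonneg c
  constructor
  · nlinarith [mul_le_mul_of_nonneg_right h2 (show (0 : ℝ) ≤ (s : ℝ) + c by positivity),
      Real.sqrt_nonneg 2]
  · linarith

/-! ### Adding copies of `P_3` -/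

theorem copies_adj {t : ℕ} (x y : Fin t × Fin 3) :
    (copiesP3 t).Adj x y ↔
      x.1 = y.1 ∧ ((x.2 : ℕ) + 1 = (y.2 : ℕ) ∨ (y.2 : ℕ) + 1 = (x.2 : ℕ)) := by
  simp [copiesP3, pathGraph_adj, and_comm]

/-- All edges of `spider s c ⊕g copiesP3 t`. -/
def sumEdge (hc : c ≤ s) (t : ℕ) :
    (Fin s ⊕ Fin c) ⊕ (Fin t × Fin 2) → Sym2 (Option (Fin s ⊕ Fin c) ⊕ (Fin t × Fin 3))
  | Sum.inl x => (spEdge hc x).map Sum.inl
  | Sum.inr (i, a) => s(Sum.inr (i, a.castSucc), Sum.inr (i, a.succ))

theorem edgeSet_sum_subset (hc : c ≤ s) (t : ℕ) :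
    (spider s c ⊕g copiesP3 t).edgeSet ⊆ Set.range (sumEdge (s := s) (c := c) hc t) := by
  intro e
  induction e using Sym2.ind with
  | _ x y =>
    intro h
    rw [SimpleGraph.mem_edgeSet] at h
    rcases x with x | ⟨i, a⟩ <;> rcases y with y | ⟨i', a'⟩
    · rw [SimpleGraph.sum_adj_inl, ← SimpleGraph.mem_edgeSet, ← range_spEdge hc] at h
      obtain ⟨z, hz⟩ := h
      refine ⟨Sum.inl z, ?_⟩
      simp only [sumEdge, hz, Sym2.map_mk]
    · exact absurd h (SimpleGraph.not_adj_sum_inl_inr _ _)
    · exact absurd h.symm (SimpleGraph.not_adj_sum_inl_inr _ _)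
    · rw [SimpleGraph.sum_adj_inr, copies_adj] at h
      obtain ⟨h1, h2 | h2⟩ := h
      · simp only at h1 h2
        subst h1
        have ha : (a : ℕ) < 2 := by have := a'.2; omega
        refine ⟨Sum.inr (i, ⟨a, ha⟩), ?_⟩
        have e1 : (⟨a, ha⟩ : Fin 2).castSucc = a := Fin.ext rfl
        have e2 : (⟨a, ha⟩ : Fin 2).succ = a' := Fin.ext h2
        simp only [sumEdge, e1, e2]
      · simp only at h1 h2
        subst h1
        have ha : (a' : ℕ) < 2 := by have := a.2; omega
        refine ⟨Sum.inr (i, ⟨a', ha⟩), ?_⟩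
        have e1 : (⟨a', ha⟩ : Fin 2).castSucc = a' := Fin.ext rfl
        have e2 : (⟨a', ha⟩ : Fin 2).succ = a := Fin.ext h2
        simp only [sumEdge, e1, e2]
        exact Sym2.eq_swap

theorem edgeSet_sum_ncard (hc : c ≤ s) (t : ℕ) :
    (spider s c ⊕g copiesP3 t).edgeSet.ncard ≤ s + c + 2 * t := by
  calc (spider s c ⊕g copiesP3 t).edgeSet.ncard
      ≤ (Set.range (sumEdge (s := s) (c := c) hc t)).ncard :=
        Set.ncard_le_ncard (edgeSet_sum_subset hc t) (Set.toFinite _)
    _ ≤ (Set.univ : Set ((Fin s ⊕ Fin c) ⊕ (Fin t × Fin 2))).ncard := by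
        rw [← Set.image_univ]
        exact Set.ncard_image_le (Set.toFinite _)
    _ = s + c + 2 * t := by
        rw [Set.ncard_univ]
        simp [mul_comm]

theorem nbr_sum_inl (t : ℕ) (v : Option (Fin s ⊕ Fin c)) :
    (spider s c ⊕g copiesP3 t).neighborSet (Sum.inl v) = Sum.inl '' (spider s c).neighborSet v := by
  ext x
  rw [SimpleGraph.mem_neighborSet]
  rcases x with x | x
  · rw [SimpleGraph.sum_adj_inl]
    simp
  · simp

theorem nbr_sum_inl_ncard (t : ℕ) (v : Option (Fin s ⊕ Fin c)) :
    ((spider s c ⊕g copiesP3 t).neighborSet (Sum.inl v)).ncard =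
      ((spider s c).neighborSet v).ncard := by
  rw [nbr_sum_inl, Set.ncard_image_of_injective _ Sum.inl_injective]

theorem nbr_sum_inr (t : ℕ) (x : Fin t × Fin 3) :
    (spider s c ⊕g copiesP3 t).neighborSet (Sum.inr x) = Sum.inr '' (copiesP3 t).neighborSet x := by
  ext y
  rw [SimpleGraph.mem_neighborSet]
  rcases y with y | y
  · simp
  · rw [SimpleGraph.sum_adj_inr]
    simp

theorem nbr_center (t : ℕ) (i : Fin t) :
    (copiesP3 t).neighborSet (i, 1) = {(i, 0), (i, 2)} := by
  ext ⟨j, a⟩
  rw [SimpleGraph.mem_neighborSet, copies_adj]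
  fin_cases a <;> simp [Prod.ext_iff, eq_comm]

theorem nbr_end0 (t : ℕ) (i : Fin t) : (copiesP3 t).neighborSet (i, 0) = {(i, 1)} := by
  ext ⟨j, a⟩
  rw [SimpleGraph.mem_neighborSet, copies_adj]
  fin_cases a <;> simp [Prod.ext_iff, eq_comm]

theorem nbr_end2 (t : ℕ) (i : Fin t) : (copiesP3 t).neighborSet (i, 2) = {(i, 1)} := by
  ext ⟨j, a⟩
  rw [SimpleGraph.mem_neighborSet, copies_adj]
  fin_cases a <;> simp [Prod.ext_iff, eq_comm]

theorem nbr_center_ncard (t : ℕ) (i : Fin t) :
    ((spider s c ⊕g copiesP3 t).neighborSet (Sum.inr (i, 1))).ncard = 2 := by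
  rw [nbr_sum_inr, Set.ncard_image_of_injective _ Sum.inr_injective, nbr_center,
    Set.ncard_pair (by simp)]

theorem nbr_end0_ncard (t : ℕ) (i : Fin t) :
    ((spider s c ⊕g copiesP3 t).neighborSet (Sum.inr (i, 0))).ncard = 1 := by
  rw [nbr_sum_inr, Set.ncard_image_of_injective _ Sum.inr_injective, nbr_end0,
    Set.ncard_singleton]

theorem nbr_end2_ncard (t : ℕ) (i : Fin t) :
    ((spider s c ⊕g copiesP3 t).neighborSet (Sum.inr (i, 2))).ncard = 1 := by
  rw [nbr_sum_inr, Set.ncard_image_of_injective _ Sum.inr_injective, nbr_end2,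
    Set.ncard_singleton]

theorem internal_sum_ncard (hc : c ≤ s) (hs : 2 ≤ s) (t : ℕ) :
    (internalEdges (spider s c ⊕g copiesP3 t)).ncard ≤ c := by
  have hsub : internalEdges (spider s c ⊕g copiesP3 t) ⊆
      Sym2.map Sum.inl '' internalEdges (spider s c) := by
    rintro e ⟨he, hint⟩
    obtain ⟨(z | ⟨i, a⟩), rfl⟩ := edgeSet_sum_subset hc t he
    · refine ⟨spEdge hc z, ⟨?_, ?_⟩, rfl⟩
      · rw [← range_spEdge hc]
        exact ⟨z, rfl⟩
      · intro v hv
        rw [← nbr_sum_inl_ncard t v]
        apply hint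
        simp only [sumEdge, Sym2.mem_map]
        exact ⟨v, hv, rfl⟩
    · exfalso
      fin_cases a
      · exact hint (Sum.inr (i, 0)) (by simp [sumEdge]) (nbr_end0_ncard t i)
      · exact hint (Sum.inr (i, 2)) (by simp [sumEdge]) (nbr_end2_ncard t i)
  calc (internalEdges (spider s c ⊕g copiesP3 t)).ncard
      ≤ (Sym2.map Sum.inl '' internalEdges (spider s c)).ncard :=
        Set.ncard_le_ncard hsub (Set.toFinite _)
    _ ≤ (internalEdges (spider s c)).ncard := Set.ncard_image_le (Set.toFinite _)
    _ = c := internal_spider_ncard hc hs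

/-- The degree-two vertices used in the counting argument. -/
def degTwo (hc : c ≤ s) (t : ℕ) : Fin c ⊕ Fin t → Option (Fin s ⊕ Fin c) ⊕ (Fin t × Fin 3)
  | Sum.inl j => Sum.inl (some (Sum.inl (Fin.castLE hc j)))
  | Sum.inr i => Sum.inr (i, 1)

theorem degTwo_injective (hc : c ≤ s) (t : ℕ) :
    Function.Injective (degTwo (s := s) (c := c) hc t) := by
  rintro (j | i) (j' | i') h
  · simpa [degTwo] using h
  · simp [degTwo] at h
  · simp [degTwo] at h
  · simpa [degTwo] using h

theorem antimagic_bound (hc : c ≤ s) (hs : 2 ≤ s) (t : ℕ)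
    (h : Antimagic (spider s c ⊕g copiesP3 t)) : t ≤ 2 * (s + c) + 1 := by
  classical
  obtain ⟨f, hf⟩ := h
  have key := core (spider s c ⊕g copiesP3 t) f hf
    (Finset.univ.image (degTwo (s := s) (c := c) hc t)) (by
      intro v hv
      rw [Finset.mem_image] at hv
      obtain ⟨(j | i), _, rfl⟩ := hv
      · show ((spider s c ⊕g copiesP3 t).neighborSet (Sum.inl _)).ncard = 2
        rw [nbr_sum_inl_ncard, nbr_inl_lt_ncard]
      · exact nbr_center_ncard t i) (by
      intro u hu v hv hadj
      rw [Finset.mem_image] at hu hv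
      obtain ⟨(j | i), _, rfl⟩ := hu <;> obtain ⟨(j' | i'), _, rfl⟩ := hv
      · exact not_adj_inl_inl _ _ (SimpleGraph.sum_adj_inl.1 hadj)
      · exact SimpleGraph.not_adj_sum_inl_inr _ _ hadj
      · exact SimpleGraph.not_adj_sum_inl_inr _ _ hadj.symm
      · have := SimpleGraph.sum_adj_inr.1 hadj
        rw [copies_adj] at this
        simp at this)
  rw [Finset.card_image_of_injective _ (degTwo_injective hc t)] at key
  have h1 := edgeSet_sum_ncard (s := s) (c := c) hc t
  have h2 := internal_sum_ncard (s := s) (c := c) hc hs t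
  simp only [Finset.card_univ, Fintype.card_sum, Fintype.card_fin] at key
  omega

theorem tau_spider (hc : c ≤ s) (hs : 2 ≤ s) :
    tau (spider s c) ≤ (((2 * (s + c) + 1 : ℕ) : ℝ) : EReal) := by
  unfold tau
  apply sSup_le
  rintro x ⟨t, rfl, ht⟩
  have := antimagic_bound hc hs t (ht t le_rfl)
  exact_mod_cast this

/-! ### The trees are antimagic -/

/-- Labels of the edges below the non-root vertices. -/
def lab (s c : ℕ) : Fin s ⊕ Fin c → ℕ
  | Sum.inl i => if (i : ℕ) < c then s - c + 2 * (i : ℕ) + 1 else (i : ℕ) - c + 1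
  | Sum.inr j => s - c + 2 * (j : ℕ) + 2

theorem lab_injective (hc : c ≤ s) : Function.Injective (lab s c) := by
  rintro (i | j) (i' | j') h
  · have h1 := i.2
    have h2 := i'.2
    congr 1
    apply Fin.ext
    simp only [lab] at h
    split_ifs at h <;> omega
  · exfalso
    have h1 := i.2
    have h2 := j'.2
    simp only [lab] at h
    split_ifs at h <;> omega
  · exfalso
    have h1 := j.2
    have h2 := i'.2
    simp only [lab] at h
    split_ifs at h <;> omega
  · congr 1
    apply Fin.ext
    simp only [lab] at h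
    omega

theorem lab_mem (hc : c ≤ s) (z : Fin s ⊕ Fin c) : 1 ≤ lab s c z ∧ lab s c z ≤ s + c := by
  rcases z with i | j
  · have h1 := i.2
    simp only [lab]
    split_ifs <;> omega
  · have h1 := j.2
    simp only [lab]
    omega

theorem lab_surj (hc : c ≤ s) (y : ℕ) (h1 : 1 ≤ y) (h2 : y ≤ s + c) :
    ∃ z : Fin s ⊕ Fin c, lab s c z = y := by
  by_cases hy : y ≤ s - c
  · refine ⟨Sum.inl ⟨y - 1 + c, by omega⟩, ?_⟩
    simp only [lab]
    rw [if_neg (by omega)]
    omega
  · by_cases hodd : (y - (s - c)) % 2 = 1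
    · refine ⟨Sum.inl ⟨(y - (s - c) - 1) / 2, by omega⟩, ?_⟩
      simp only [lab]
      rw [if_pos (by omega)]
      omega
    · refine ⟨Sum.inr ⟨(y - (s - c) - 2) / 2, by omega⟩, ?_⟩
      simp only [lab]
      omega

/-- The labelling. -/
noncomputable def spLabel (hc : c ≤ s) : Sym2 (Option (Fin s ⊕ Fin c)) → ℕ :=
  Function.extend (spEdge hc) (lab s c) (fun _ => 0)

theorem spLabel_edge (hc : c ≤ s) (z : Fin s ⊕ Fin c) :
    spLabel hc (spEdge hc z) = lab s c z :=
  (spEdge_injective hc).extend_apply _ _ _

theorem mem_spEdge_inl (hc : c ≤ s) (i : Fin s) : (some (Sum.inl i)) ∈ spEdge hc (Sum.inl i) := by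
  simp [spEdge]

theorem spEdge_mem (hc : c ≤ s) (z : Fin s ⊕ Fin c) : spEdge hc z ∈ (spider s c).edgeSet := by
  rw [← range_spEdge hc]
  exact ⟨z, rfl⟩

theorem sum_inr (hc : c ≤ s) (j : Fin c) :
    vertexSum (spider s c) (spLabel hc) (some (Sum.inr j)) = s - c + 2 * (j : ℕ) + 2 := by
  rw [vertexSum_leaf (spider s c) (spLabel hc) (spEdge_mem hc (Sum.inr j)) (by simp [spEdge])
    (by rw [nbr_inr hc, Set.ncard_singleton]), spLabel_edge]
  rfl

theorem sum_inl_ge (hc : c ≤ s) (i : Fin s) (hi : c ≤ (i : ℕ)) :
    vertexSum (spider s c) (spLabel hc) (some (Sum.inl i)) = (i : ℕ) - c + 1 := by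
  rw [vertexSum_leaf (spider s c) (spLabel hc) (spEdge_mem hc (Sum.inl i)) (by simp [spEdge])
    (by rw [nbr_inl_ge i hi, Set.ncard_singleton]), spLabel_edge]
  simp only [lab]
  rw [if_neg (by omega)]

theorem incidence_inl (hc : c ≤ s) (j : Fin c) :
    (spider s c).incidenceSet (some (Sum.inl (Fin.castLE hc j))) =
      {spEdge hc (Sum.inl (Fin.castLE hc j)), spEdge hc (Sum.inr j)} := by
  ext e
  constructor
  · rintro ⟨he, hmem⟩
    rw [← range_spEdge hc] at he
    obtain ⟨(i | j'), rfl⟩ := he
    · simp only [spEdge, Sym2.mem_iff, reduceCtorEq, false_or, Option.some.injEq,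
        Sum.inl.injEq] at hmem
      rw [hmem]
      simp
    · simp only [spEdge, Sym2.mem_iff, Option.some.injEq, Sum.inl.injEq, reduceCtorEq,
        or_false] at hmem
      have : j = j' := by
        have := congrArg Fin.val hmem
        exact Fin.ext (by simpa using this)
      rw [this]
      simp
  · intro h
    rcases h with h | h
    · rw [h]
      exact ⟨spEdge_mem hc _, by simp [spEdge]⟩
    · rw [Set.mem_singleton_iff] at h
      rw [h]
      exact ⟨spEdge_mem hc _, by simp [spEdge]⟩

theorem sum_inl_lt (hc : c ≤ s) (j : Fin c) :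
    vertexSum (spider s c) (spLabel hc) (some (Sum.inl (Fin.castLE hc j))) =
      2 * (s - c) + 4 * (j : ℕ) + 3 := by
  unfold vertexSum
  rw [incidence_inl, finsum_mem_pair, spLabel_edge, spLabel_edge]
  · have := j.2
    simp only [lab, Fin.val_castLE]
    rw [if_pos this]
    ring
  · intro h
    have := spEdge_injective hc h
    simp at this

theorem incidence_none (hc : c ≤ s) :
    (spider s c).incidenceSet none = Set.range (fun i : Fin s => spEdge hc (Sum.inl i)) := by
  ext e
  constructor
  · rintro ⟨he, hmem⟩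
    rw [← range_spEdge hc] at he
    obtain ⟨(i | j'), rfl⟩ := he
    · exact ⟨i, rfl⟩
    · simp [spEdge] at hmem
  · rintro ⟨i, rfl⟩
    exact ⟨spEdge_mem hc _, by simp [spEdge]⟩

theorem sum_none (hc : c ≤ s) :
    s * (s + 1) ≤ 2 * vertexSum (spider s c) (spLabel hc) none := by
  unfold vertexSum
  have hinj : Function.Injective (fun i : Fin s => spEdge hc (Sum.inl i)) := by
    intro a b hab
    simpa using spEdge_injective hc hab
  rw [incidence_none hc, finsum_mem_range hinj, finsum_eq_sum_of_fintype]
  have hinj2 : Function.Injective (fun i : Fin s => lab s c (Sum.inl i)) := by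
    intro a b hab
    simpa using lab_injective hc hab
  have := sum_lower (Finset.univ.image (fun i : Fin s => lab s c (Sum.inl i))) 0 (by
    intro x hx
    rw [Finset.mem_image] at hx
    obtain ⟨i, _, rfl⟩ := hx
    exact (lab_mem hc _).1)
  rw [Finset.card_image_of_injective _ hinj2, Finset.sum_image (fun _ _ _ _ h => hinj2 h),
    Finset.card_univ, Fintype.card_fin] at this
  simp only [spLabel_edge]
  linarith

theorem spider_antimagic (hs : 12 * c + 14 ≤ s) : Antimagic (spider s c) := by
  have hc : c ≤ s := by omega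
  refine ⟨spLabel hc, ⟨?_, ?_, ?_⟩, ?_⟩
  · intro e he
    rw [← range_spEdge hc] at he
    obtain ⟨z, rfl⟩ := he
    rw [spLabel_edge, edgeSet_ncard hc]
    exact lab_mem hc z
  · intro e he e' he' h
    rw [← range_spEdge hc] at he he'
    obtain ⟨z, rfl⟩ := he
    obtain ⟨z', rfl⟩ := he'
    rw [spLabel_edge, spLabel_edge] at h
    rw [lab_injective hc h]
  · intro y hy
    rw [edgeSet_ncard hc, Set.mem_Icc] at hy
    obtain ⟨z, hz⟩ := lab_surj hc y hy.1 hy.2
    exact ⟨spEdge hc z, spEdge_mem hc z, by rw [spLabel_edge, hz]⟩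
  · -- it suffices to treat ordered kinds of vertices
    have h0 := sum_none (s := s) (c := c) hc
    have hbig : 2 * s + 2 * c < vertexSum (spider s c) (spLabel hc) none := by nlinarith
    have hnone : ∀ z : Fin s ⊕ Fin c,
        vertexSum (spider s c) (spLabel hc) (some z) ≤ 2 * s + 2 * c := by
      rintro (i | j)
      · by_cases hi : (i : ℕ) < c
        · have := sum_inl_lt (s := s) (c := c) hc ⟨i, hi⟩
          have hii : Fin.castLE hc ⟨(i : ℕ), hi⟩ = i := Fin.ext rfl
          rw [hii] at this
          rw [this]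
          simp only
          omega
        · rw [sum_inl_ge hc i (by omega)]
          have := i.2
          omega
      · rw [sum_inr hc j]
        have := j.2
        omega
    have hval : ∀ z : Fin s ⊕ Fin c, vertexSum (spider s c) (spLabel hc) (some z) =
        match z with
        | Sum.inl i => if (i : ℕ) < c then 2 * (s - c) + 4 * (i : ℕ) + 3 else (i : ℕ) - c + 1
        | Sum.inr j => s - c + 2 * (j : ℕ) + 2 := by
      rintro (i | j)
      · by_cases hi : (i : ℕ) < c
        · have := sum_inl_lt (s := s) (c := c) hc ⟨i, hi⟩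
          have hii : Fin.castLE hc ⟨(i : ℕ), hi⟩ = i := Fin.ext rfl
          rw [hii] at this
          simp only [this, if_pos hi]
        · simp only [sum_inl_ge hc i (by omega), if_neg hi]
      · exact sum_inr hc j
    rintro (_ | z) (_ | z') hne h
    · exact hne rfl
    · have := hnone z'
      omega
    · have := hnone z
      omega
    · apply hne
      congr 1
      rw [hval, hval] at h
      rcases z with i | j <;> rcases z' with i' | j'
      · have h1 := i.2
        have h2 := i'.2
        congr 1
        apply Fin.ext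
        simp only at h
        split_ifs at h <;> omega
      · exfalso
        have h1 := i.2
        have h2 := j'.2
        simp only at h
        split_ifs at h <;> omega
      · exfalso
        have h1 := j.2
        have h2 := i'.2
        simp only at h
        split_ifs at h <;> omega
      · congr 1
        apply Fin.ext
        simp only at h
        omega

end spider

/-- **Main theorem.**  For every `C` there is a finite antimagic tree `G` (without isolated
vertices, without a component `P_2`) with `β(G) ≥ 0` and `τ(G) + C < β(G)`. -/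
theorem result : ∀ C : ℕ, ∃ (V : Type) (_ : Fintype V) (G : SimpleGraph V),
    G.IsTree ∧ Antimagic G ∧ (∀ v : V, ∃ w : V, G.Adj v w) ∧
    (∀ K : G.ConnectedComponent, IsEmpty (K.toSimpleGraph ≃g pathGraph 2)) ∧
    0 ≤ beta G ∧ tau G + ((C : ℝ) : EReal) < ((beta G : ℝ) : EReal) := by
  intro C
  set c := C + 1 with hcdef
  set s := 12 * c + 14 with hsdef
  have hc : c ≤ s := by omega
  refine ⟨Option (Fin s ⊕ Fin c), inferInstance, spider s c, spider_isTree hc,
    spider_antimagic le_rfl, noIsolated_spider hc (by omega), noP2_spider hc (by omega), ?_, ?_⟩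
  · have := beta_spider (s := s) (c := c) le_rfl
    omega
  · have hb := beta_spider (s := s) (c := c) le_rfl
    have ht := tau_spider (s := s) (c := c) hc (by omega)
    calc tau (spider s c) + ((C : ℝ) : EReal)
        ≤ (((2 * (s + c) + 1 : ℕ) : ℝ) : EReal) + ((C : ℝ) : EReal) := add_le_add_left ht _
      _ = (((2 * (s + c) + 1 : ℕ) : ℝ) + (C : ℝ) : ℝ) := by rw [EReal.coe_add]
      _ < ((beta (spider s c) : ℝ) : EReal) := by
          rw [EReal.coe_lt_coe_iff]
          have : ((2 * (s + c) + 1 : ℕ) : ℤ) + (C : ℤ) < beta (spider s c) := by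
            push_cast
            omega
          exact_mod_cast this

end Pool.Agent.Results.MP_f5b38d_co.TauGapTrees
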